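import Pool.Agent.Work.MP_1001d8_an.Main

namespace Pool.Agent.Work.MP_1001d8_an.Parked.PFPNotUniform

/-- The primary factorisation property: for each operator `T` the identity factors through `T`
or through `Id - T`. -/
def PFP (E : Type) [NormedAddCommGroup E] [NormedSpace ℝ E] : Prop :=
  ∀ T : E →L[ℝ] E,
    (∃ U V : E →L[ℝ] E, U ∘L T ∘L V = ContinuousLinearMap.id ℝ E) ∨
    (∃ U V : E →L[ℝ] E, U ∘L (ContinuousLinearMap.id ℝ E - T) ∘L V = ContinuousLinearMap.id ℝ E)

/-- The `C`-primary factorisation property. -/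
def CPFP (C : ℝ) (E : Type) [NormedAddCommGroup E] [NormedSpace ℝ E] : Prop :=
  ∀ T : E →L[ℝ] E, ∃ U V : E →L[ℝ] E, ‖U‖ * ‖V‖ ≤ C ∧
    (U ∘L T ∘L V = ContinuousLinearMap.id ℝ E ∨
      U ∘L (ContinuousLinearMap.id ℝ E - T) ∘L V = ContinuousLinearMap.id ℝ E)

/-- The uniform primary factorisation property. -/
def UPFP (E : Type) [NormedAddCommGroup E] [NormedSpace ℝ E] : Prop :=
  ∃ C : ℝ, 1 ≤ C ∧ CPFP C E

/-- There is a real Banach space with the primary factorisation property but without the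
uniform primary factorisation property. -/
theorem result : ∃ (E : Type) (_ : NormedAddCommGroup E) (_ : NormedSpace ℝ E),
    CompleteSpace E ∧ PFP E ∧ ¬ UPFP E := by
  refine ⟨Pool.Agent.Work.MP_1001d8_an.TW, inferInstance, inferInstance, inferInstance,
    fun T => Pool.Agent.Work.MP_1001d8_an.pfp T, ?_⟩
  rintro ⟨C, hC, h⟩
  obtain ⟨T, hT⟩ := Pool.Agent.Work.MP_1001d8_an.not_upfp C hC
  obtain ⟨U, V, hUV, h1 | h1⟩ := h T
  · exact (hT U V hUV).1 h1
  · exact (hT U V hUV).2 h1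

end Pool.Agent.Work.MP_1001d8_an.Parked.PFPNotUniform
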